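import Pool.Agent.PM8dcc.Main

/-!
Princess and monster on the star with `n` legs of length one, `n ≥ 10 ^ 13`: there is no mixed
princess strategy that is both optimal and confluent. So either no optimal princess strategy
exists on this finite tree, or every optimal one fails to be confluent.
-/

open MeasureTheory Pool.Agent.PM8dcc
open scoped NNReal

theorem Pool.Agent.Results.MP_8dcc2c_an.NoConfluentOptimal.result (n : ℕ) (hn : 10 ^ 13 ≤ n) :
    ¬ ∃ π : Measure C(ℝ≥0, StarTree n), IsOptimal π ∧ IsConfluent π :=
  no_confluent_optimal n hn
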